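import Pool.Agent.helper12.DD.Spec2

set_option autoImplicit false

open Pool.Agent.helper49.Blk

namespace Pool.Agent.DD

open Polynomial in
theorem INF_root (q : ℕ) (hq : 1 < q) : ∃ y : integralClosure ℤ ℂ, y ^ q - y - 1 = 0 := by
  have hdeg : (X ^ q - X - 1 : ℤ[X]).natDegree = q := by
    have h1 : (X ^ q - X - 1 : ℤ[X]) = X ^ q - (X + 1) := by ring
    rw [h1, natDegree_sub_eq_left_of_natDegree_lt]
    · simp
    · have h2 : (X + 1 : ℤ[X]).natDegree = 1 := by
        have := natDegree_X_add_C (1 : ℤ)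
        simpa using this
      rw [h2]; simpa using hq
  have hmon : (X ^ q - X - 1 : ℤ[X]).Monic := by
    have h1 : (X ^ q - X - 1 : ℤ[X]) = X ^ q - (X + 1) := by ring
    rw [h1]
    apply Monic.sub_of_left (monic_X_pow q)
    have h2 : (X + 1 : ℤ[X]).degree = 1 := by
      have := degree_X_add_C (1 : ℤ)
      simpa using this
    rw [h2, degree_X_pow]
    exact_mod_cast hq
  have hd : ((X ^ q - X - 1 : ℤ[X]).map (algebraMap ℤ ℂ)).degree ≠ 0 := by
    rw [hmon.degree_map, degree_eq_natDegree hmon.ne_zero, hdeg]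
    exact_mod_cast (by omega : q ≠ 0)
  obtain ⟨x, hx⟩ := IsAlgClosed.exists_root _ hd
  have hx' : x ^ q - x - 1 = 0 := by
    have := hx
    rw [IsRoot.def, eval_map] at this
    simpa using this
  have hxi : IsIntegral ℤ x := by
    refine ⟨X ^ q - X - 1, hmon, ?_⟩
    simpa using hx'
  exact ⟨⟨x, hxi⟩, Subtype.ext (by simpa using hx')⟩

theorem INF : INF_stmt := by
  intro p _ M hM _
  by_contra hinf
  haveI hfin : Finite (integralClosure ℤ ℂ ⧸ M) := not_infinite_iff_finite.mp hinf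
  letI : Field (integralClosure ℤ ℂ ⧸ M) := Ideal.Quotient.field M
  haveI : Fintype (integralClosure ℤ ℂ ⧸ M) := Fintype.ofFinite _
  obtain ⟨y, hy⟩ := INF_root (Fintype.card (integralClosure ℤ ℂ ⧸ M)) Fintype.one_lt_card
  have h1 : (Ideal.Quotient.mk M y) ^ (Fintype.card (integralClosure ℤ ℂ ⧸ M))
      - Ideal.Quotient.mk M y - 1 = 0 := by
    rw [← map_pow, ← map_sub, ← map_one (Ideal.Quotient.mk M), ← map_sub, hy, map_zero]
  rw [FiniteField.pow_card] at h1
  simp at h1

end Pool.Agent.DD
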